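import Mathlib
import Pool.Agent.Lib.MP_3240be_co.Q22.Main2

/-!
# Trees of copies of a well connected graph are not Ramsey-equivalent to larger connected graphs

Let `D` be 3-connected, or bipartite such that it stays connected after the deletion of one vertex
or of two vertices in different classes.  Glue copies of `D` and small graphs together at single
vertices, in a tree-like way, so that every copy of `D` has an edge at whose ends no further copy
of `D` is glued.  Let `H` be a subgraph of the result that contains `D`, for instance any connected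
graph with the block `D` all of whose other blocks are small.  If `H'` is a connected graph that
contains `H` and is not isomorphic to `H` (for instance `H` with a pendant edge at any vertex),
then some finite graph is Ramsey for `H` but not for `H'`.
-/

set_option autoImplicit false

namespace Pool.Agent.Results.MP_3240be_co.BlockTrees

open Pool.Agent.Lib.MP_3240be_co.H82

/-- `F → H`: every colouring of the edges of `F` with two colours has a monochromatic copy of
`H`. -/
def Arrows {m n : ℕ} (F : SimpleGraph (Fin m)) (H : SimpleGraph (Fin n)) : Prop :=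
  ∀ c : Fin m → Fin m → Bool, (∀ x y : Fin m, c x y = c y x) →
    ∃ b : Bool, ∃ f : Fin n → Fin m, Function.Injective f ∧
      ∀ i j : Fin n, H.Adj i j → F.Adj (f i) (f j) ∧ c (f i) (f j) = b

/-- `A` is isomorphic to a subgraph of `B`. -/
def IsSub {U V : Type} (A : SimpleGraph U) (B : SimpleGraph V) : Prop :=
  ∃ f : U → V, Function.Injective f ∧ ∀ x y, A.Adj x y → B.Adj (f x) (f y)

/-- `H` stays connected (and nonempty) after the deletion of the vertices `a` and `b`, which may
be equal. -/
def StaysConnected {n : ℕ} (H : SimpleGraph (Fin n)) (a b : Fin n) : Prop :=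
  (H.induce {x | x ≠ a ∧ x ≠ b}).Connected

/-- `H` has at least three vertices and it stays connected after the deletion of any two vertices:
the triangle and the 3-connected graphs. -/
def ThreeConnected {n : ℕ} (H : SimpleGraph (Fin n)) : Prop :=
  3 ≤ n ∧ ∀ a b : Fin n, StaysConnected H a b

/-- `H` has at least three vertices and two colour classes such that it stays connected after the
deletion of any vertex, and after the deletion of any two vertices in different classes. -/
def CrossConnected {n : ℕ} (H : SimpleGraph (Fin n)) : Prop :=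
  3 ≤ n ∧ ∃ κ : Fin n → Bool, (∀ x y, H.Adj x y → κ x ≠ κ y) ∧
    (∀ a, StaysConnected H a a) ∧ ∀ a b, κ a ≠ κ b → StaysConnected H a b

/-- `U` is small relative to `D`: it is a proper subgraph of `D`, or it has a proper colouring with
two colours that uses the first colour at fewer vertices than every proper colouring of `D` with
two colours does (so if `D` is not bipartite then all bipartite graphs are small). -/
def Small {k t : ℕ} (D : SimpleGraph (Fin k)) (U : SimpleGraph (Fin t)) : Prop :=
  (IsSub U D ∧ ¬ IsSub D U) ∨ ∃ κ : Fin t → Bool, (∀ x y, U.Adj x y → κ x ≠ κ y) ∧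
    ∀ κ' : Fin k → Bool, (∀ x y, D.Adj x y → κ' x ≠ κ' y) →
      Nat.card {v // κ v = true} < Nat.card {v // κ' v = true}

/-- `DTree D T A F`: the graph `T` with vertex set `A` (and no edges elsewhere) is a tree of copies
of `D` and of small graphs, and `F` is the set of its free vertices.  One starts with one free
vertex.  A small graph may be glued (at any vertex of it) to any vertex; its other vertices are
free.  A copy of `D` may be glued (at any vertex `r` of it) to a free vertex; one chooses an edge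
`a b` of `D` with `a, b ≠ r` and the vertices other than `a`, `b` of the new copy are free. -/
inductive DTree {k : ℕ} (D : SimpleGraph (Fin k)) : SimpleGraph ℕ → Set ℕ → Set ℕ → Prop
  | start (y : ℕ) : DTree D ⊥ {y} {y}
  | small (T : SimpleGraph ℕ) (A F : Set ℕ) (t : ℕ) (U : SimpleGraph (Fin t)) (f : Fin t ↪ ℕ)
      (r : Fin t) (h : DTree D T A F) (hU : Small D U) (hr : f r ∈ A)
      (hnew : ∀ v, v ≠ r → f v ∉ A) :
      DTree D (T ⊔ U.map f) (A ∪ Set.range f) (F ∪ f '' {v | v ≠ r})
  | copy (T : SimpleGraph ℕ) (A F : Set ℕ) (f : Fin k ↪ ℕ) (r a b : Fin k) (h : DTree D T A F)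
      (hr : f r ∈ F) (hnew : ∀ v, v ≠ r → f v ∉ A) (hab : D.Adj a b) (hra : r ≠ a)
      (hrb : r ≠ b) :
      DTree D (T ⊔ D.map f) (A ∪ Set.range f) (F ∪ f '' {v | v ≠ a ∧ v ≠ b})

theorem dtree_lib {k : ℕ} {D : SimpleGraph (Fin k)} {T : SimpleGraph ℕ} {A F : Set ℕ}
    (h : DTree D T A F) : MP3240Q.DTree2 D T A F := by
  induction h with
  | start y => exact MP3240Q.DTree2.start y
  | small T A F t U f r h hU hr hnew ih => exact MP3240Q.DTree2.small T A F t U f r ih hU hr hnew
  | copy T A F f r a b h hr hnew hab hra hrb ih =>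
    exact MP3240Q.DTree2.copy T A F f r a b ih hr hnew hab hra hrb

/-- Closed sets in the graph without `a` and `b`. -/
theorem closed {n : ℕ} {H : SimpleGraph (Fin n)} {a b : Fin n} (h : StaysConnected H a b)
    (A : Fin n → Prop) (hA : ∃ x, x ≠ a ∧ x ≠ b ∧ A x)
    (hcl : ∀ x y, x ≠ a → x ≠ b → y ≠ a → y ≠ b → H.Adj x y → A x → A y) :
    ∀ y, y ≠ a → y ≠ b → A y := by
  intro y hya hyb
  obtain ⟨x, hxa, hxb, hAx⟩ := hA
  obtain ⟨p⟩ := h.preconnected ⟨x, hxa, hxb⟩ ⟨y, hya, hyb⟩
  have main : ∀ (u v : {x : Fin n | x ≠ a ∧ x ≠ b})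
      (_ : (H.induce {x | x ≠ a ∧ x ≠ b}).Walk u v), A u.1 → A v.1 := by
    intro u v p
    induction p with
    | nil => exact id
    | cons hadj _ ih =>
      rename_i u1 u2 u3 _
      exact fun hu => ih (hcl _ _ u1.2.1 u1.2.2 u2.2.1 u2.2.2 hadj hu)
  exact main _ _ p hAx

theorem third {n : ℕ} (h3 : 3 ≤ n) (x y : Fin n) : ∃ z : Fin n, z ≠ x ∧ z ≠ y := by
  by_contra hcon
  push Not at hcon
  have hs : (Finset.univ : Finset (Fin n)) ⊆ {x, y} := by
    intro z _
    by_cases hz : z = x
    · rw [hz]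
      exact Finset.mem_insert_self _ _
    · rw [hcon z hz]
      exact Finset.mem_insert_of_mem (Finset.mem_singleton_self _)
  have h1 := Finset.card_le_card hs
  rw [Finset.card_univ, Fintype.card_fin] at h1
  have h2 := Finset.card_le_two (a := x) (b := y)
  omega

/-- Deletion of at most two vertices, in terms of closed sets. -/
theorem sep_of {n : ℕ} {H : SimpleGraph (Fin n)} (h3 : 3 ≤ n)
    (h1 : ∀ a, StaysConnected H a a) (I J : Fin n → Prop)
    (hI : ∀ x y, I x → I y → x = y) (hJ : ∀ x y, J x → J y → x = y)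
    (h2 : ∀ a b, I a → J b → StaysConnected H a b)
    (A : Fin n → Prop) (hA : ∃ x, ¬ I x ∧ ¬ J x ∧ A x)
    (hcl : ∀ x y, ¬ I x → ¬ J x → ¬ I y → ¬ J y → H.Adj x y → A x → A y) :
    ∀ y, ¬ I y → ¬ J y → A y := by
  intro y hyI hyJ
  obtain ⟨x, hxI, hxJ, hAx⟩ := hA
  -- vertices that contain `I` and `J` and avoid `x` and `y`
  obtain ⟨a, b, hab, hxa, hxb, hya, hyb, hn⟩ : ∃ a b, StaysConnected H a b ∧ x ≠ a ∧ x ≠ b ∧
      y ≠ a ∧ y ≠ b ∧ ∀ z, z ≠ a → z ≠ b → ¬ I z ∧ ¬ J z := by
    by_cases hi : ∃ a, I a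
    · obtain ⟨a, ha⟩ := hi
      have hz : ∀ z, z ≠ a → ¬ I z := fun z hz hIz => hz (hI _ _ hIz ha)
      by_cases hj : ∃ b, J b
      · obtain ⟨b, hb⟩ := hj
        exact ⟨a, b, h2 a b ha hb, fun e => hxI (e ▸ ha), fun e => hxJ (e ▸ hb),
          fun e => hyI (e ▸ ha), fun e => hyJ (e ▸ hb),
          fun z hza hzb => ⟨hz z hza, fun hJz => hzb (hJ _ _ hJz hb)⟩⟩
      · exact ⟨a, a, h1 a, fun e => hxI (e ▸ ha), fun e => hxI (e ▸ ha),
          fun e => hyI (e ▸ ha), fun e => hyI (e ▸ ha),
          fun z hza _ => ⟨hz z hza, fun hJz => hj ⟨z, hJz⟩⟩⟩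
    · by_cases hj : ∃ b, J b
      · obtain ⟨b, hb⟩ := hj
        exact ⟨b, b, h1 b, fun e => hxJ (e ▸ hb), fun e => hxJ (e ▸ hb),
          fun e => hyJ (e ▸ hb), fun e => hyJ (e ▸ hb),
          fun z hzb _ => ⟨fun hIz => hi ⟨z, hIz⟩, fun hJz => hzb (hJ _ _ hJz hb)⟩⟩
      · obtain ⟨z, hzx, hzy⟩ := third h3 x y
        exact ⟨z, z, h1 z, hzx.symm, hzx.symm, hzy.symm, hzy.symm,
          fun z _ _ => ⟨fun hIz => hi ⟨z, hIz⟩, fun hJz => hj ⟨z, hJz⟩⟩⟩
  exact closed hab A ⟨x, hxa, hxb, hAx⟩ (fun u v hua hub hva hvb huv hu =>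
    hcl u v (hn u hua hub).1 (hn u hua hub).2 (hn v hva hvb).1 (hn v hva hvb).2 huv hu)
    y hya hyb

theorem tc_of_three {n : ℕ} {H : SimpleGraph (Fin n)} (h : ThreeConnected H) : TC False H where
  ne := ⟨⟨0, by have := h.1; omega⟩⟩
  third := third h.1
  bip := fun hf => hf.elim
  sep := fun I J hI hJ _ A hA hcl =>
    sep_of h.1 (fun a => h.2 a a) I J hI hJ (fun a b _ _ => h.2 a b) A hA hcl

theorem tc_of_cross {n : ℕ} {H : SimpleGraph (Fin n)} (h : CrossConnected H) : TC True H := by
  obtain ⟨h3, κ, hκ, h1, h2⟩ := h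
  refine ⟨⟨⟨0, by omega⟩⟩, third h3, fun _ => ⟨κ, hκ⟩, ?_⟩
  intro I J hI hJ hκ' A hA hcl
  obtain ⟨κ', hκ1, hκ2⟩ := hκ' trivial
  refine sep_of h3 h1 I J hI hJ (fun a b ha hb => h2 a b ?_) A hA hcl
  -- the two proper colourings agree or are complementary
  have hall := sep_of h3 h1 (fun _ => False) (fun _ => False) (fun _ _ h => h.elim)
    (fun _ _ h => h.elim) (fun _ _ h => h.elim)
    (fun z => (κ z == κ' z) = (κ a == κ' a)) ⟨a, fun h => h, fun h => h, rfl⟩ (by
      intro x y _ _ _ _ hxy hx
      have e1 := hκ x y hxy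
      have e2 := hκ1 x y hxy
      rw [← hx]
      revert e1 e2
      cases κ x <;> cases κ y <;> cases κ' x <;> cases κ' y <;> decide)
  have e1 := hall b (fun h => h) (fun h => h)
  have e2 := hκ2 a b ha hb
  revert e1 e2
  cases κ a <;> cases κ b <;> cases κ' a <;> cases κ' b <;> decide

open Pool.Agent.Lib.MP_3240be_co.H36.Chrom in
/-- Let `D` be 3-connected (or a triangle), or bipartite such that it stays connected after the
deletion of one vertex or of two vertices in different classes.  Let `H` contain `D` and be a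
subgraph of a tree of copies of `D` and small graphs.  If `H'` is connected, contains `H` and is
not isomorphic to `H`, then some graph is Ramsey for `H` but not for `H'`. -/
theorem result (k n n' : ℕ) (D : SimpleGraph (Fin k)) (H : SimpleGraph (Fin n))
    (H' : SimpleGraph (Fin n')) (hD : ThreeConnected D ∨ CrossConnected D) (hDH : IsSub D H)
    (T : SimpleGraph ℕ) (A F : Set ℕ) (hT : DTree D T A F)
    (hH : ∃ f : Fin n → ℕ, Function.Injective f ∧ (∀ x, f x ∈ A) ∧
      ∀ x y, H.Adj x y → T.Adj (f x) (f y))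
    (hconn : H'.Connected) (hsub : IsSub H H') (hiso : IsEmpty (H ≃g H')) :
    ∃ (m : ℕ) (G : SimpleGraph (Fin m)), Arrows G H ∧ ¬ Arrows G H' := by
  have hno : ¬ ∃ f : Fin n' → Fin n, Function.Injective f ∧
      ∀ x y, H'.Adj x y → H.Adj (f x) (f y) := by
    intro h2
    obtain ⟨e⟩ := iso_of_le H H' hsub h2
    exact hiso.false e
  have key : ∃ (V : Type) (_ : Finite V) (G : SimpleGraph V), ArrowsT G H ∧ ¬ ArrowsT G H' := by
    rcases hD with h | h
    · exact MP3240Q.main2_proof _ k n n' D H H' (tc_of_three h) hDH ⟨T, A, F, dtree_lib hT, hH⟩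
        hconn hsub hno
    · exact MP3240Q.main2_proof _ k n n' D H H' (tc_of_cross h) hDH ⟨T, A, F, dtree_lib hT, hH⟩
        hconn hsub hno
  obtain ⟨V, hV, G, hG1, hG2⟩ := key
  obtain ⟨m, ⟨ε⟩⟩ := Finite.exists_equiv_fin V
  exact ⟨m, G.comap ε.symm, (arrowsT_equiv ε G H).2 hG1, fun h => hG2 ((arrowsT_equiv ε G H').1 h)⟩

end Pool.Agent.Results.MP_3240be_co.BlockTrees
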