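import Mathlib
import Pool.Agent.Lib.MP_3240be_co.D62.Main
import Pool.Agent.Lib.MP_3240be_co.D62.Fin

/-!
# Connected bipartite graphs are not Ramsey-equivalent to larger connected graphs

Let `H` be a connected bipartite graph and let `H'` be a connected graph that contains `H` and has
more vertices than `H`, for instance `H` with a pendant edge.  Then some finite graph is Ramsey
for `H` but not for `H'`.
-/

set_option autoImplicit false

namespace Pool.Agent.Results.MP_3240be_co.ConnectedBipartite

open Pool.Agent.Lib.MP_3240be_co.H36.Chrom (ArrowsT)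

/-- `F → H`: every colouring of the edges of `F` with two colours has a monochromatic copy of
`H`. -/
def Arrows {m n : ℕ} (F : SimpleGraph (Fin m)) (H : SimpleGraph (Fin n)) : Prop :=
  ∀ c : Fin m → Fin m → Bool, (∀ x y : Fin m, c x y = c y x) →
    ∃ b : Bool, ∃ f : Fin n → Fin m, Function.Injective f ∧
      ∀ i j : Fin n, H.Adj i j → F.Adj (f i) (f j) ∧ c (f i) (f j) = b

/-- `H` is (isomorphic to) a subgraph of `H'`. -/
def Contains {n n' : ℕ} (H' : SimpleGraph (Fin n')) (H : SimpleGraph (Fin n)) : Prop :=
  ∃ j : Fin n → Fin n', Function.Injective j ∧ ∀ x y, H.Adj x y → H'.Adj (j x) (j y)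

/-- Let `H` be a connected bipartite graph and let `H'` be a connected graph with more vertices
than `H` that contains `H`.  Then some finite graph is Ramsey for `H` but not for `H'`. -/
theorem result {n n' : ℕ} (H : SimpleGraph (Fin n)) (H' : SimpleGraph (Fin n'))
    (hH : H.Connected) (hbip : H.Colorable 2) (hH' : H'.Connected) (hlt : n < n')
    (hsub : Contains H' H) :
    ∃ (m : ℕ) (F : SimpleGraph (Fin m)), Arrows F H ∧ ¬ Arrows F H' := by
  obtain ⟨κ⟩ := hbip
  refine MP3240E.all_fin MP3240E.main H H' (fun v => decide (κ v = 0)) hH ?_ hH' hsub hlt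
  intro i j hij h
  have h1 : κ i ≠ κ j := κ.valid hij
  have h2 : ∀ a b : Fin 2, a ≠ b → decide (a = 0) ≠ decide (b = 0) := by decide
  exact h2 _ _ h1 h

end Pool.Agent.Results.MP_3240be_co.ConnectedBipartite
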