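import Mathlib
import Pool.Agent.Lib.MP_3240be_co.CO.All

/-!
# Connected graphs of vertex arboricity less than their chromatic number, and graphs with a core
that does not fold, are not Ramsey-equivalent to larger connected graphs

Let `H` be a connected graph with chromatic number `r + 1 ≥ 3`.  If the vertices of `H` can be
partitioned into `r` sets that induce forests, or if `H` has a core which is rigid or satisfies a
numerical criterion, then every connected graph `H'` that contains `H` and is not isomorphic to `H`
(for instance `H` with a pendant edge at any vertex) is separated from `H`: some finite graph is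
Ramsey for `H` but not for `H'`.
-/

set_option autoImplicit false

namespace Pool.Agent.Results.MP_3240be_co.CoreCriterion

/-- `F → H`: every colouring of the edges of `F` with two colours has a monochromatic copy of
`H`. -/
def Arrows {m n : ℕ} (F : SimpleGraph (Fin m)) (H : SimpleGraph (Fin n)) : Prop :=
  ∀ c : Fin m → Fin m → Bool, (∀ x y : Fin m, c x y = c y x) →
    ∃ b : Bool, ∃ f : Fin n → Fin m, Function.Injective f ∧
      ∀ i j : Fin n, H.Adj i j → F.Adj (f i) (f j) ∧ c (f i) (f j) = b

/-- `A` is isomorphic to a subgraph of `B`. -/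
def IsSub {U V : Type} (A : SimpleGraph U) (B : SimpleGraph V) : Prop :=
  ∃ f : U → V, Function.Injective f ∧ ∀ i j, A.Adj i j → B.Adj (f i) (f j)

/-- The set `X` of vertices is independent. -/
def Independent {n : ℕ} (H : SimpleGraph (Fin n)) (X : Finset (Fin n)) : Prop :=
  ∀ x ∈ X, ∀ y ∈ X, ¬ H.Adj x y

/-- `L` is 2-connected: it has at least three vertices, and it is connected after the deletion of
any vertex. -/
def TwoConn {d : ℕ} (L : SimpleGraph (Fin d)) : Prop :=
  3 ≤ d ∧ ∀ a : Fin d, (L.induce {x | x ≠ a}).Connected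

/-- The set `S` is bad in `G`: `G[S]` is not `r`-colourable. -/
def Bad {n : ℕ} (G : SimpleGraph (Fin n)) (r : ℕ) (S : Finset (Fin n)) : Prop :=
  ¬ (G.induce {x | x ∈ S}).Colorable r

/-- Every vertex of `L` lies in a bad set of `L` which has at most as many elements as every bad
set of `H`. -/
def Heavy {n d : ℕ} (H : SimpleGraph (Fin n)) (r : ℕ) (L : SimpleGraph (Fin d)) : Prop :=
  ∀ v, ∃ S, v ∈ S ∧ Bad L r S ∧ ∀ S', Bad H r S' → S.card ≤ S'.card

/-- `L` is a core of `H`: a 2-connected heavy subgraph of `H` which is not properly contained in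
another 2-connected heavy subgraph of `H`. -/
def IsCore {n d : ℕ} (H : SimpleGraph (Fin n)) (r : ℕ) (L : SimpleGraph (Fin d)) : Prop :=
  IsSub L H ∧ TwoConn L ∧ Heavy H r L ∧
    ∀ (e : ℕ) (J : SimpleGraph (Fin e)), IsSub J H → TwoConn J → Heavy H r J → IsSub L J →
      IsSub J L

/-- `L` folds into `R`: there is a homomorphism from `L` to `R` such that any two different
vertices of `L` with the same image are separated in `L` by the set of all vertices with some
other image `u` (every walk between them meets this set). -/
def Folds {V W : Type} (L : SimpleGraph V) (R : SimpleGraph W) : Prop :=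
  ∃ φ : V → W, (∀ a b, L.Adj a b → R.Adj (φ a) (φ b)) ∧
    ∀ a b, a ≠ b → φ a = φ b → ∃ u, u ≠ φ a ∧ ∀ p : L.Walk a b, ∃ x ∈ p.support, φ x = u

/-- The vertices of `G` can be partitioned into `r` sets that induce forests. -/
def Forests {V : Type} (G : SimpleGraph V) (r : ℕ) : Prop :=
  ∃ κ : V → Fin r, ∀ a, (G.induce {x | κ x = a}).IsAcyclic

/-- `L` is rigid relative to `H`: a subgraph of `H` into which `L` folds contains `L`. -/
def Rigid {n d : ℕ} (H : SimpleGraph (Fin n)) (L : SimpleGraph (Fin d)) : Prop :=
  ∀ (m : ℕ) (R : SimpleGraph (Fin m)), IsSub R H → Folds L R → IsSub L R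

/-- The numerical criterion: there are independent sets `X₁`, `X₂` such that `H - X₁` is a union of
`r` induced forests, `L` does not fold into `H - X₂`, and `|X₁| + |X₂| < |Y| + |Z|` for all
independent sets `Y`, `Z` such that `H - Y` is `r`-colourable and `H - Z` does not contain `L`. -/
def Numerical {n d : ℕ} (H : SimpleGraph (Fin n)) (r : ℕ) (L : SimpleGraph (Fin d)) : Prop :=
  ∃ X₁ X₂ : Finset (Fin n), Independent H X₁ ∧ Independent H X₂ ∧
    Forests (H.induce {x | x ∉ X₁}) r ∧ ¬ Folds L (H.induce {x | x ∉ X₂}) ∧
    ∀ Y Z : Finset (Fin n), Independent H Y → Independent H Z →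
      (H.induce {x | x ∉ Y}).Colorable r → ¬ IsSub L (H.induce {x | x ∉ Z}) →
      X₁.card + X₂.card < Y.card + Z.card

/-- **Main theorem.** Let `H` be connected with chromatic number `r + 1 ≥ 3`.  Suppose that the
vertices of `H` can be partitioned into `r` sets that induce forests, or that `H` has a core `L`
that is rigid or satisfies the numerical criterion.  If `H'` is connected, contains `H` and is not
isomorphic to `H`, then some finite graph is Ramsey for `H` but not for `H'`. -/
theorem result (n n' r : ℕ) (H : SimpleGraph (Fin n)) (H' : SimpleGraph (Fin n'))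
    (hr : 2 ≤ r) (hH : H.Connected) (hcol : H.Colorable (r + 1)) (hncol : ¬ H.Colorable r)
    (hG : Forests H r ∨ ∃ (d : ℕ) (L : SimpleGraph (Fin d)), IsCore H r L ∧
      (Rigid H L ∨ Numerical H r L))
    (hconn : H'.Connected) (hsub : IsSub H H') (hiso : IsEmpty (H ≃g H')) :
    ∃ (m : ℕ) (F : SimpleGraph (Fin m)), Arrows F H ∧ ¬ Arrows F H' :=
  MP3240CO.core_final_T MP3240CO.coreNum_all (fun _ _ H hr h => MP3240K.exists_core H hr h)
    H H' hr hH hncol hcol
    (hG.imp id fun ⟨d, L, ⟨h1, h2, h3, h4⟩, h5⟩ => ⟨d, L, ⟨h1, h2, h3, h4⟩, h5⟩) hconn hsub hiso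

end Pool.Agent.Results.MP_3240be_co.CoreCriterion
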