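import Mathlib
import Pool.Agent.Lib.MP_3240be_co.C4.All

/-!
# 2-connected graphs are not Ramsey-equivalent to larger connected graphs

Let `H` be any 2-connected graph, bipartite or not, with or without triangles.  If `H'` is a
connected graph that contains `H` and is not isomorphic to `H` (for instance `H` with a pendant
edge at any vertex), then some finite graph is Ramsey for `H` but not for `H'`.
-/

set_option autoImplicit false

namespace Pool.Agent.Results.MP_3240be_co.TwoConnected

/-- `F → H`: every colouring of the edges of `F` with two colours has a monochromatic copy of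
`H`. -/
def Arrows {m n : ℕ} (F : SimpleGraph (Fin m)) (H : SimpleGraph (Fin n)) : Prop :=
  ∀ c : Fin m → Fin m → Bool, (∀ x y : Fin m, c x y = c y x) →
    ∃ b : Bool, ∃ f : Fin n → Fin m, Function.Injective f ∧
      ∀ i j : Fin n, H.Adj i j → F.Adj (f i) (f j) ∧ c (f i) (f j) = b

/-- `H` is 2-connected: it has at least three vertices, and it is connected after the deletion of
any vertex. -/
def TwoConn {n : ℕ} (H : SimpleGraph (Fin n)) : Prop :=
  3 ≤ n ∧ ∀ a : Fin n, (H.induce {x | x ≠ a}).Connected

/-- `F → H` is the statement with which the library works. -/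
theorem arrowsT_iff {m n : ℕ} (F : SimpleGraph (Fin m)) (H : SimpleGraph (Fin n)) :
    Pool.Agent.Lib.MP_3240be_co.H36.Chrom.ArrowsT F H ↔ Arrows F H := Iff.rfl

/-- **Main theorem.** Let `H` be a 2-connected graph.  If `H'` is connected, contains `H` and is
not isomorphic to `H`, then some finite graph is Ramsey for `H` but not for `H'`. -/
theorem result (n n' : ℕ) (H : SimpleGraph (Fin n)) (H' : SimpleGraph (Fin n'))
    (hH : TwoConn H) (hconn : H'.Connected)
    (hsub : ∃ f : Fin n → Fin n', Function.Injective f ∧ ∀ i j, H.Adj i j → H'.Adj (f i) (f j))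
    (hiso : IsEmpty (H ≃g H')) :
    ∃ (m : ℕ) (F : SimpleGraph (Fin m)), Arrows F H ∧ ¬ Arrows F H' :=
  MP3240C.two_connected_T H H' hH.1 hH.2 hconn hsub hiso

end Pool.Agent.Results.MP_3240be_co.TwoConnected
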